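import Mathlib
import Pool.Agent.H6.PCDefs
import Pool.Agent.H69.LB.Defs
import Pool.Agent.H26.SZ.Fa

/-!
# MP_103a5c SimpleZeros: shared definitions

`L = log T`, `Δ² = T²/L`, `ω = T / (2 √π √L)`.
-/

open Finset
open scoped ArithmeticFunction.vonMangoldt ArithmeticFunction.Moebius ArithmeticFunction.zeta

namespace H82SZ

noncomputable section

/-- the analytic weight, `Pool.Agent.H26.SZ.Gw T t` on the critical line -/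
def Gs (T : ℝ) (s : ℂ) : ℂ :=
  Complex.exp ((s - 1 / 2 - T * Complex.I) ^ 2 * (Real.log T : ℂ) / (T : ℂ) ^ 2)

/-- `ω` -/
def om (T : ℝ) : ℝ := T / (2 * Real.sqrt Real.pi * Real.sqrt (Real.log T))

/-- `w(r) = exp (-(T - 2πr)² L / T²)` -/
def wt (T r : ℝ) : ℝ := Real.exp (-((T - 2 * Real.pi * r) ^ 2 * Real.log T / T ^ 2))

/-- admissible coefficient functions: `C^∞`, compact support, zero from `θ` on -/
structure Adm (θ : ℝ) (P : ℝ → ℝ) : Prop where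
  smooth : ContDiff ℝ (⊤ : ℕ∞) P
  cpt : HasCompactSupport P
  zero : ∀ v, θ ≤ v → P v = 0

/-- `x(k) = μ(k) P(log k / L)` -/
def xk (P : ℝ → ℝ) (T : ℝ) : ArithmeticFunction ℝ :=
  ⟨fun k => (ArithmeticFunction.moebius k : ℝ) * P (Real.log k / Real.log T), by simp⟩

/-- `y(n) = Λ(n) α(log n / L) / L`, without the constant `c₀` -/
def yk (α : ℝ → ℝ) (T : ℝ) : ArithmeticFunction ℝ :=
  ⟨fun n => ArithmeticFunction.vonMangoldt n * α (Real.log n / Real.log T) / Real.log T, by simp⟩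

/-- `y` with the constant: `c₀ δ + y` -/
def y0 (c0 : ℝ) (α : ℝ → ℝ) (T : ℝ) : ArithmeticFunction ℝ :=
  c0 • (1 : ArithmeticFunction ℝ) + yk α T

/-- coefficients of `F`: `f = c₀ δ + y + (log * x)/L` -/
def fk (c0 : ℝ) (α P : ℝ → ℝ) (T : ℝ) : ArithmeticFunction ℝ :=
  y0 c0 α T + (Real.log T)⁻¹ • (ArithmeticFunction.log * xk P T)

/-- the length of the Dirichlet polynomials -/
def NT (T : ℝ) : ℕ := ⌊T⌋₊

/-- the Dirichlet polynomial of an arithmetic function, terms up to `T` -/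
def dpol (T : ℝ) (a : ArithmeticFunction ℝ) (s : ℂ) : ℂ := ∑ n ∈ Icc 1 (NT T), (a n : ℂ) * (n : ℂ) ^ (-s)

/-- `F(s) = c₀ + ∑ y(n) n^{-s} - ζ'(s) M(s) / L` -/
def FF (c0 : ℝ) (α P : ℝ → ℝ) (T : ℝ) (s : ℂ) : ℂ :=
  dpol T (y0 c0 α T) s - deriv riemannZeta s * dpol T (xk P T) s / (Real.log T : ℂ)

/-- `a = 1 + 1/L` -/
def aT (T : ℝ) : ℝ := 1 + 1 / Real.log T

/-- `N₀ = ⌈10 T⌉` -/
def N0 (T : ℝ) : ℕ := ⌈10 * T⌉₊

/-- `D_j[c] = ∑_k (x(k)/k) ∑_{n ≤ N₀ k} c(n) e(-n/k) w(n/k) (log (n/k))^j` -/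
def Dj (P : ℝ → ℝ) (T : ℝ) (j : ℕ) (c : ArithmeticFunction ℝ) : ℂ :=
  ∑ k ∈ Icc 1 (NT T), ((xk P T k / k : ℝ) : ℂ) *
    ∑ n ∈ Icc 1 (N0 T * k), ((c n * (wt T (n / k) * Real.log (n / k) ^ j) : ℝ) : ℂ) * H69LB.ee (-((n : ℝ) / k))

/-- the principal part: `e(-n/k)` replaced by `μ(k')/φ(k')`, `k' = k/(k,n)` -/
def Prj (P : ℝ → ℝ) (T : ℝ) (j : ℕ) (c : ArithmeticFunction ℝ) : ℝ :=
  ∑ k ∈ Icc 1 (NT T), xk P T k / k *
    ∑ n ∈ Icc 1 (N0 T * k), c n * (wt T (n / k) * Real.log (n / k) ^ j) *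
      ((ArithmeticFunction.moebius (k / Nat.gcd k n) : ℝ) / (Nat.totient (k / Nat.gcd k n) : ℝ))

/-- `MM = (1/2π) ∫ G(s) F(s) F(1-s) dt`, `s = a + it` -/
def MM (c0 : ℝ) (α P : ℝ → ℝ) (T : ℝ) : ℂ :=
  (2 * Real.pi : ℂ)⁻¹ * ∫ t : ℝ, Gs T (aT T + t * Complex.I) * FF c0 α P T (aT T + t * Complex.I) *
    FF c0 α P T (1 - (aT T + t * Complex.I))

/-- `PP = (1/2π) ∫ (ζ'/ζ)(s) G(s) F(s) F(1-s) dt`, `s = a + it` -/
def PP (c0 : ℝ) (α P : ℝ → ℝ) (T : ℝ) : ℂ :=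
  (2 * Real.pi : ℂ)⁻¹ * ∫ t : ℝ, logDeriv riemannZeta (aT T + t * Complex.I) *
    (Gs T (aT T + t * Complex.I) * FF c0 α P T (aT T + t * Complex.I) *
    FF c0 α P T (1 - (aT T + t * Complex.I)))

/-- final statement of block C -/
def CFstat : Prop := ∀ (c0 ε : ℝ) (α P : ℝ → ℝ), 0 < ε → ε < 1 / 2 → Adm (1 - ε) α → Adm (1 / 2 - ε) P →
  ∃ C T0 : ℝ, ∀ T, T0 ≤ T → ∀ S : Finset ℝ, (∀ g ∈ S, g ∈ Pool.Agent.PC.Z ∧ T / 4 ≤ g ∧ g ≤ 4 * T) →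
    ∑ g ∈ S, (Pool.Agent.PC.m g : ℝ) * Pool.Agent.H26.SZ.Gw T g * ‖FF c0 α P T (1 / 2 + g * Complex.I)‖ ^ 2 ≤
      (1 + C / T) * (2 * (PP c0 α P T).re + (Real.log T + C) * (MM c0 α P T).re) + C * T ^ (1 - ε / 2)

/-- diagonal sum `∑ f(n) y(n) / n` -/
def diag (T : ℝ) (f y : ArithmeticFunction ℝ) : ℝ := ∑ n ∈ Icc 1 (NT T), f n * y n / n

/-- final statement of block K -/
def KFstat : Prop := ∀ (c0 ε : ℝ) (α P : ℝ → ℝ), 0 < ε → ε < 1 / 2 → Adm (1 - ε) α → Adm (1 / 2 - ε) P →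
  ∃ C T0 : ℝ, ∀ T, T0 ≤ T →
    ‖MM c0 α P T - ((om T * diag T (fk c0 α P T) (y0 c0 α T) : ℝ) + (Real.log T : ℂ)⁻¹ *
      (Dj P T 1 ((ζ : ArithmeticFunction ℝ) * fk c0 α P T) - Dj P T 0 (ArithmeticFunction.log * fk c0 α P T)))‖
        ≤ C * T ^ (1 - ε / 2) ∧
    ‖PP c0 α P T - (-(om T * diag T (Λ * fk c0 α P T) (y0 c0 α T) : ℝ) + (Real.log T : ℂ)⁻¹ *
      (Dj P T 0 (Λ * ArithmeticFunction.log * fk c0 α P T) - Dj P T 1 (ArithmeticFunction.log * fk c0 α P T)))‖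
        ≤ C * T ^ (1 - ε / 2)

/-- final statement of block E, for one arithmetic function `c` depending on `T` -/
def Esmall (P : ℝ → ℝ) (c : ℝ → ArithmeticFunction ℝ) : Prop := ∀ A : ℕ, ∀ j : ℕ, j ≤ 1 →
  ∃ C T0 : ℝ, ∀ T, T0 ≤ T → ‖Dj P T j (c T) - (Prj P T j (c T) : ℝ)‖ ≤ C * T / Real.log T ^ A

end

end H82SZ
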