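import Pool.Agent.H82.SZ.Defs
import Pool.Agent.H26.SZ.Fd

/-!
# MP_103a5c SimpleZeros: assembly, the moment bound from the blocks C, K, E, M
-/

open Finset Filter Topology
open scoped ArithmeticFunction.vonMangoldt ArithmeticFunction.Moebius ArithmeticFunction.zeta

namespace H82SZ

/-- one limit of block M -/
def MLim (P : ℝ → ℝ) (j h : ℕ) (c : ℝ → ArithmeticFunction ℝ) (v : ℝ) : Prop :=
  Tendsto (fun T => Prj P T j (c T) / (om T * Real.log T ^ h)) atTop (𝓝 v)

lemma om_pos {T : ℝ} (h : 1 < T) : 0 < om T := by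
  unfold om
  have := Real.log_pos h
  have := Real.pi_pos
  positivity

/-- `om T / T` times a power of the logarithm tends to infinity -/
lemma tendsto_err (A : ℕ) : Tendsto (fun T => (T / Real.log T ^ (A + 1)) / om T) atTop (𝓝 0) := by
  have h1 : Tendsto (fun L : ℝ => 2 * Real.sqrt Real.pi * (Real.sqrt L / L ^ (A + 1))) atTop (𝓝 0) := by
    have h2 : Tendsto (fun L : ℝ => Real.sqrt L / L ^ (A + 1)) atTop (𝓝 0) := by
      have h3 : Tendsto (fun L : ℝ => (Real.sqrt L)⁻¹) atTop (𝓝 0) :=
        tendsto_inv_atTop_zero.comp Real.tendsto_sqrt_atTop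
      refine squeeze_zero' ?_ ?_ h3
      · filter_upwards [eventually_gt_atTop 0] with L hL
        positivity
      · filter_upwards [eventually_ge_atTop 1] with L hL
        have hL0 : 0 < L := by linarith
        have hs : 0 < Real.sqrt L := Real.sqrt_pos.2 hL0
        rw [div_le_iff₀ (by positivity)]
        have h5 : L ≤ L ^ (A + 1) := le_self_pow₀ hL (by omega)
        have h6 : Real.sqrt L * Real.sqrt L = L := Real.mul_self_sqrt hL0.le
        calc Real.sqrt L = (Real.sqrt L)⁻¹ * L := by
              field_simp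
              nlinarith
          _ ≤ (Real.sqrt L)⁻¹ * L ^ (A + 1) := by gcongr
    simpa using h2.const_mul (2 * Real.sqrt Real.pi)
  refine (h1.comp Real.tendsto_log_atTop).congr' ?_
  filter_upwards [eventually_gt_atTop 1] with T hT
  have hl := Real.log_pos hT
  have hs : 0 < Real.sqrt (Real.log T) := Real.sqrt_pos.2 hl
  have hp : 0 < Real.sqrt Real.pi := Real.sqrt_pos.2 Real.pi_pos
  have hT0 : 0 < T := by linarith
  simp only [Function.comp_apply, om]
  field_simp

lemma tendsto_pw {δ : ℝ} (hδ : 0 < δ) : Tendsto (fun T => T ^ (1 - δ) / om T) atTop (𝓝 0) := by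
  have h1 : Tendsto (fun T : ℝ => 2 * Real.sqrt Real.pi * (Real.sqrt (Real.log T) / T ^ δ)) atTop (𝓝 0) := by
    have h2 : Tendsto (fun T : ℝ => Real.sqrt (Real.log T) / T ^ δ) atTop (𝓝 0) := by
      have h3 : Tendsto (fun T : ℝ => Real.log T / T ^ δ) atTop (𝓝 0) := by
        have := (isLittleO_log_rpow_atTop hδ).tendsto_div_nhds_zero
        exact this
      refine squeeze_zero' ?_ ?_ h3
      · filter_upwards [eventually_gt_atTop 0] with T hT
        positivity
      · filter_upwards [Real.tendsto_log_atTop.eventually_ge_atTop 1, eventually_gt_atTop 0] with T hT hT0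
        have : Real.sqrt (Real.log T) ≤ Real.log T := by
          rw [Real.sqrt_le_left (by linarith)]
          nlinarith
        gcongr
    simpa using h2.const_mul (2 * Real.sqrt Real.pi)
  refine h1.congr' ?_
  filter_upwards [eventually_gt_atTop 1] with T hT
  have hl := Real.log_pos hT
  have hs : 0 < Real.sqrt (Real.log T) := Real.sqrt_pos.2 hl
  have hp : 0 < Real.sqrt Real.pi := Real.sqrt_pos.2 Real.pi_pos
  have hT0 : 0 < T := by linarith
  have hr : 0 < T ^ δ := Real.rpow_pos_of_pos hT0 _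
  have he : T ^ (1 - δ) = T / T ^ δ := by rw [Real.rpow_sub hT0, Real.rpow_one]
  simp only [om]
  rw [he]
  field_simp

/-- from the principal part to `D_j` -/
lemma Dj_lim {P : ℝ → ℝ} {c : ℝ → ArithmeticFunction ℝ} (hE : Esmall P c) {j h : ℕ} (hj : j ≤ 1) {v : ℝ}
    (hM : MLim P j h c v) : Tendsto (fun T => (Dj P T j (c T)).re / (om T * Real.log T ^ h)) atTop (𝓝 v) := by
  obtain ⟨C, T0, hC⟩ := hE 1 j hj
  have h1 : Tendsto (fun T => ((Dj P T j (c T)).re - Prj P T j (c T)) / (om T * Real.log T ^ h)) atTop (𝓝 0) := by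
    have h2 := (tendsto_err 0).const_mul |C|
    rw [mul_zero] at h2
    rw [tendsto_zero_iff_abs_tendsto_zero]
    refine squeeze_zero' (Eventually.of_forall fun T => abs_nonneg _) ?_ h2
    filter_upwards [eventually_ge_atTop T0, eventually_gt_atTop 1, Real.tendsto_log_atTop.eventually_ge_atTop 1]
      with T hT hT1 hl
    have h3 := hC T hT
    have h4 : |(Dj P T j (c T)).re - Prj P T j (c T)| ≤ ‖Dj P T j (c T) - (Prj P T j (c T) : ℝ)‖ := by
      have := Complex.abs_re_le_norm (Dj P T j (c T) - (Prj P T j (c T) : ℝ))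
      simpa using this
    have ho := om_pos hT1
    have hT0 : 0 < T := by linarith
    have h5 : (1 : ℝ) ≤ Real.log T ^ h := one_le_pow₀ hl
    simp only [Function.comp_apply]
    rw [abs_div, abs_of_pos (by positivity : 0 < om T * Real.log T ^ h)]
    calc |(Dj P T j (c T)).re - Prj P T j (c T)| / (om T * Real.log T ^ h)
        ≤ (C * T / Real.log T ^ 1) / (om T * Real.log T ^ h) := by
          gcongr
          exact h4.trans h3
      _ ≤ (|C| * T / Real.log T ^ 1) / (om T * 1) := by
          have : C * T / Real.log T ^ 1 ≤ |C| * T / Real.log T ^ 1 := by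
            gcongr
            exact le_abs_self C
          have h6 : 0 ≤ |C| * T / Real.log T ^ 1 := by positivity
          gcongr
      _ = |C| * (T / Real.log T ^ (0 + 1) / om T) := by ring
  have h7 := h1.add hM
  rw [zero_add] at h7
  refine h7.congr fun T => ?_
  ring

/-- the moment bound -/
theorem mbound_of (hC : CFstat) (hK : KFstat) {c0 ε : ℝ} {α P : ℝ → ℝ} (hε : 0 < ε) (hε' : ε < 1 / 2)
    (hα : Adm (1 - ε) α) (hP : Adm (1 / 2 - ε) P)
    (hE1 : Esmall P fun T => (ζ : ArithmeticFunction ℝ) * fk c0 α P T)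
    (hE2 : Esmall P fun T => ArithmeticFunction.log * fk c0 α P T)
    (hE3 : Esmall P fun T => Λ * ArithmeticFunction.log * fk c0 α P T)
    {A1 A2 A3 d1 d2 : ℝ}
    (hM1 : MLim P 1 1 (fun T => (ζ : ArithmeticFunction ℝ) * fk c0 α P T) A1)
    (hM2 : MLim P 0 1 (fun T => ArithmeticFunction.log * fk c0 α P T) A2)
    (hM3 : MLim P 0 2 (fun T => Λ * ArithmeticFunction.log * fk c0 α P T) A3)
    (hM4 : MLim P 1 2 (fun T => ArithmeticFunction.log * fk c0 α P T) A2)
    (hd1 : Tendsto (fun T => diag T (fk c0 α P T) (y0 c0 α T)) atTop (𝓝 d1))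
    (hd2 : Tendsto (fun T => diag T (Λ * fk c0 α P T) (y0 c0 α T) / Real.log T) atTop (𝓝 d2)) :
    Pool.Agent.H26.SZ.MBound (FF c0 α P) (2 * (-d2 + A3 - A2) + (d1 + A1 - A2)) := by
  obtain ⟨Cc, Tc, hCF⟩ := hC c0 ε α P hε hε' hα hP
  obtain ⟨Ck, Tk, hKF⟩ := hK c0 ε α P hε hε' hα hP
  have hδ : 0 < ε / 2 := by linarith
  -- the limit of MM / om
  have hMM : Tendsto (fun T => (MM c0 α P T).re / om T) atTop (𝓝 (d1 + (A1 - A2))) := by
    have hD1 := Dj_lim hE1 le_rfl hM1
    have hD0 := Dj_lim hE2 (Nat.zero_le 1) hM2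
    have hmain := hd1.add (hD1.sub hD0)
    have herr : Tendsto (fun T => ((MM c0 α P T).re - (om T * diag T (fk c0 α P T) (y0 c0 α T) + (Real.log T)⁻¹ *
      ((Dj P T 1 ((ζ : ArithmeticFunction ℝ) * fk c0 α P T)).re - (Dj P T 0 (ArithmeticFunction.log * fk c0 α P T)).re))) / om T)
        atTop (𝓝 0) := by
      have h2 := (tendsto_pw hδ).const_mul |Ck|
      rw [mul_zero] at h2
      rw [tendsto_zero_iff_abs_tendsto_zero]
      refine squeeze_zero' (Eventually.of_forall fun T => abs_nonneg _) ?_ h2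
      filter_upwards [eventually_ge_atTop Tk, eventually_gt_atTop 1] with T hT hT1
      have h3 := (hKF T hT).1
      have h4 := Complex.abs_re_le_norm (MM c0 α P T - ((om T * diag T (fk c0 α P T) (y0 c0 α T) : ℝ) + (Real.log T : ℂ)⁻¹ *
        (Dj P T 1 ((ζ : ArithmeticFunction ℝ) * fk c0 α P T) - Dj P T 0 (ArithmeticFunction.log * fk c0 α P T))))
      have e : (MM c0 α P T - ((om T * diag T (fk c0 α P T) (y0 c0 α T) : ℝ) + (Real.log T : ℂ)⁻¹ *
        (Dj P T 1 ((ζ : ArithmeticFunction ℝ) * fk c0 α P T) - Dj P T 0 (ArithmeticFunction.log * fk c0 α P T)))).re =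
        (MM c0 α P T).re - (om T * diag T (fk c0 α P T) (y0 c0 α T) + (Real.log T)⁻¹ *
      ((Dj P T 1 ((ζ : ArithmeticFunction ℝ) * fk c0 α P T)).re - (Dj P T 0 (ArithmeticFunction.log * fk c0 α P T)).re)) := by
        rw [← Complex.ofReal_inv]
        simp [Complex.sub_re, Complex.add_re, Complex.re_ofReal_mul, Complex.ofReal_re]
      rw [e] at h4
      have ho := om_pos hT1
      have hT0 : 0 < T := by linarith
      simp only [Function.comp_apply]
      rw [abs_div, abs_of_pos ho, ← mul_div_assoc]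
      gcongr
      refine h4.trans (h3.trans ?_)
      gcongr
      exact le_abs_self Ck
    have h5 := hmain.add herr
    rw [add_zero] at h5
    refine h5.congr' ?_
    filter_upwards [eventually_gt_atTop 1] with T hT1
    have ho := (om_pos hT1).ne'
    have hl := (Real.log_pos hT1).ne'
    field_simp
    ring
  -- the limit of PP / (om L)
  have hPP : Tendsto (fun T => (PP c0 α P T).re / (om T * Real.log T)) atTop (𝓝 (-d2 + (A3 - A2))) := by
    have hD3 := Dj_lim hE3 (Nat.zero_le 1) hM3
    have hD4 := Dj_lim hE2 le_rfl hM4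
    have hmain := hd2.neg.add (hD3.sub hD4)
    have herr : Tendsto (fun T => ((PP c0 α P T).re - (-(om T * diag T (Λ * fk c0 α P T) (y0 c0 α T)) + (Real.log T)⁻¹ *
      ((Dj P T 0 (Λ * ArithmeticFunction.log * fk c0 α P T)).re - (Dj P T 1 (ArithmeticFunction.log * fk c0 α P T)).re)))
        / (om T * Real.log T)) atTop (𝓝 0) := by
      have h2 := (tendsto_pw hδ).const_mul |Ck|
      rw [mul_zero] at h2
      rw [tendsto_zero_iff_abs_tendsto_zero]
      refine squeeze_zero' (Eventually.of_forall fun T => abs_nonneg _) ?_ h2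
      filter_upwards [eventually_ge_atTop Tk, eventually_gt_atTop 1, Real.tendsto_log_atTop.eventually_ge_atTop 1]
        with T hT hT1 hl1
      have h3 := (hKF T hT).2
      have h4 := Complex.abs_re_le_norm (PP c0 α P T - (-(om T * diag T (Λ * fk c0 α P T) (y0 c0 α T) : ℝ) + (Real.log T : ℂ)⁻¹ *
      (Dj P T 0 (Λ * ArithmeticFunction.log * fk c0 α P T) - Dj P T 1 (ArithmeticFunction.log * fk c0 α P T))))
      have e : (PP c0 α P T - (-(om T * diag T (Λ * fk c0 α P T) (y0 c0 α T) : ℝ) + (Real.log T : ℂ)⁻¹ *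
      (Dj P T 0 (Λ * ArithmeticFunction.log * fk c0 α P T) - Dj P T 1 (ArithmeticFunction.log * fk c0 α P T)))).re =
        (PP c0 α P T).re - (-(om T * diag T (Λ * fk c0 α P T) (y0 c0 α T)) + (Real.log T)⁻¹ *
      ((Dj P T 0 (Λ * ArithmeticFunction.log * fk c0 α P T)).re - (Dj P T 1 (ArithmeticFunction.log * fk c0 α P T)).re)) := by
        rw [← Complex.ofReal_inv]
        simp [Complex.sub_re, Complex.add_re, Complex.re_ofReal_mul, Complex.ofReal_re, Complex.neg_re]
      rw [e] at h4
      have ho := om_pos hT1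
      have hT0 : 0 < T := by linarith
      simp only [Function.comp_apply]
      rw [abs_div, abs_of_pos (by positivity : 0 < om T * Real.log T), ← mul_div_assoc]
      refine (div_le_div_of_nonneg_right (h4.trans h3) (by positivity)).trans ?_
      have h6 : Ck * T ^ (1 - ε / 2) ≤ |Ck| * T ^ (1 - ε / 2) := by
        gcongr
        exact le_abs_self Ck
      have h7 : om T ≤ om T * Real.log T := by nlinarith
      gcongr
    have h5 := hmain.add herr
    rw [add_zero] at h5
    refine h5.congr' ?_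
    filter_upwards [eventually_gt_atTop 1] with T hT1
    have ho := (om_pos hT1).ne'
    have hl := (Real.log_pos hT1).ne'
    field_simp
    ring
  -- the limit of the right side
  have hlim : Tendsto (fun T => ((1 + Cc / T) * (2 * (PP c0 α P T).re + (Real.log T + Cc) * (MM c0 α P T).re) +
      Cc * T ^ (1 - ε / 2)) / (om T * Real.log T)) atTop (𝓝 (2 * (-d2 + A3 - A2) + (d1 + A1 - A2))) := by
    have e1 : Tendsto (fun T : ℝ => 1 + Cc / T) atTop (𝓝 1) := by
      simpa using (tendsto_const_nhds (x := (1 : ℝ))).add ((tendsto_const_nhds (x := Cc)).div_atTop tendsto_id)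
    have e2 : Tendsto (fun T : ℝ => 1 + Cc / Real.log T) atTop (𝓝 1) := by
      simpa using (tendsto_const_nhds (x := (1 : ℝ))).add ((tendsto_const_nhds (x := Cc)).div_atTop Real.tendsto_log_atTop)
    have e3 := e1.mul ((hPP.const_mul 2).add (e2.mul hMM))
    have e4 : Tendsto (fun T : ℝ => Cc * (T ^ (1 - ε / 2) / om T) / Real.log T) atTop (𝓝 0) := by
      have := (tendsto_pw hδ).const_mul Cc
      rw [mul_zero] at this
      exact this.div_atTop Real.tendsto_log_atTop
    have e5 := e3.add e4
    have e6 : 1 * (2 * (-d2 + (A3 - A2)) + 1 * (d1 + (A1 - A2))) + 0 = 2 * (-d2 + A3 - A2) + (d1 + A1 - A2) := by ring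
    rw [e6] at e5
    refine e5.congr' ?_
    filter_upwards [eventually_gt_atTop 1] with T hT1
    have ho := (om_pos hT1).ne'
    have hl := (Real.log_pos hT1).ne'
    have hT0 : T ≠ 0 := by linarith
    field_simp
  intro η hη
  filter_upwards [hlim.eventually_lt_const (by linarith : 2 * (-d2 + A3 - A2) + (d1 + A1 - A2) <
      2 * (-d2 + A3 - A2) + (d1 + A1 - A2) + η), eventually_ge_atTop Tc, eventually_gt_atTop 1] with T h1 h2 hT1 F hF
  have ho := om_pos hT1
  have hl := Real.log_pos hT1
  have e : om T * Real.log T = T * Real.sqrt (Real.log T) / (2 * Real.sqrt Real.pi) := by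
    unfold om
    have hs : 0 < Real.sqrt (Real.log T) := Real.sqrt_pos.2 hl
    have hp : 0 < Real.sqrt Real.pi := Real.sqrt_pos.2 Real.pi_pos
    have h6 : Real.sqrt (Real.log T) * Real.sqrt (Real.log T) = Real.log T := Real.mul_self_sqrt hl.le
    field_simp
    nlinarith
  rw [← e]
  rw [div_lt_iff₀ (by positivity)] at h1
  have h3 := hCF T h2 (F.image fun i : Pool.Agent.PC.Z => (i : ℝ)) (by
    intro g hg
    rw [Finset.mem_image] at hg
    obtain ⟨i, hi, rfl⟩ := hg
    exact ⟨i.2, hF i hi⟩)
  rw [Finset.sum_image (fun a _ b _ hab => Subtype.ext hab)] at h3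
  refine le_trans (le_of_eq ?_) (h3.trans h1.le)
  refine Finset.sum_congr rfl fun i _ => ?_
  unfold Pool.Agent.H6.wZ Pool.Agent.H6.gZ Pool.Agent.H26.SZ.rZ
  ring

end H82SZ
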