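import Pool.Agent.H82.SZ.Asm
import Pool.Agent.H91.SZE.Wbv

/-!
# MP_103a5c SimpleZeros: from Theorem E to `Esmall`
-/

open Finset Filter Topology
open scoped ArithmeticFunction.vonMangoldt ArithmeticFunction.Moebius ArithmeticFunction.zeta

namespace H82SZ

/-- complex version of a real arithmetic function -/
noncomputable def toC (a : ArithmeticFunction ℝ) : ArithmeticFunction ℂ := ⟨fun n => (a n : ℂ), by simp⟩

@[simp] lemma toC_apply (a : ArithmeticFunction ℝ) (n : ℕ) : toC a n = (a n : ℂ) := rfl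

lemma toC_mul (a b : ArithmeticFunction ℝ) : toC (a * b) = toC a * toC b := by
  ext n
  simp only [toC_apply, ArithmeticFunction.mul_apply]
  push_cast
  rfl

lemma toC_smul (r : ℝ) (a : ArithmeticFunction ℝ) : toC (r • a) = (r : ℂ) • toC a := by
  ext n
  show ((r * a n : ℝ) : ℂ) = (r : ℂ) * (a n : ℂ)
  push_cast
  rfl

lemma toC_one : toC 1 = 1 := by
  ext n
  simp only [toC_apply, ArithmeticFunction.one_apply]
  split_ifs <;> simp

lemma toC_zeta : toC (ζ : ArithmeticFunction ℝ) = SZE.smo 1 0 := by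
  ext n
  simp only [toC_apply, SZE.smo_apply, ArithmeticFunction.natCoe_apply, ArithmeticFunction.zeta_apply]
  split_ifs <;> simp

lemma toC_log : toC ArithmeticFunction.log = SZE.smo 0 1 := by
  ext n
  simp only [toC_apply, SZE.smo_apply, ArithmeticFunction.log_apply]
  split_ifs with h
  · simp [h]
  · simp

lemma toC_vonMangoldt : toC Λ = SZE.aL := by
  ext n
  simp

/-- the error functional -/
noncomputable def Ed (P : ℝ → ℝ) (T : ℝ) (j : ℕ) (c : ArithmeticFunction ℝ) : ℂ :=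
  Dj P T j c - (Prj P T j c : ℝ)

lemma Ed_eq (P : ℝ → ℝ) (T : ℝ) (j : ℕ) (c : ArithmeticFunction ℝ) :
    Ed P T j c = ∑ k ∈ Icc 1 (NT T), ((xk P T k : ℝ) : ℂ) / k *
      ∑ n ∈ Icc 1 (N0 T * k), (c n : ℂ) * ((wt T (n / k) * Real.log (n / k) ^ j : ℝ) : ℂ) * SZE.edif k n := by
  unfold Ed Dj Prj SZE.edif
  rw [Complex.ofReal_sum, ← Finset.sum_sub_distrib]
  refine Finset.sum_congr rfl fun k _ => ?_
  push_cast
  rw [← mul_sub]
  congr 1
  rw [← Finset.sum_sub_distrib]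
  refine Finset.sum_congr rfl fun n _ => ?_
  rw [Nat.gcd_comm k n]
  ring

lemma Ed_add (P : ℝ → ℝ) (T : ℝ) (j : ℕ) (a b : ArithmeticFunction ℝ) :
    Ed P T j (a + b) = Ed P T j a + Ed P T j b := by
  rw [Ed_eq, Ed_eq, Ed_eq, ← Finset.sum_add_distrib]
  refine Finset.sum_congr rfl fun k _ => ?_
  rw [← mul_add, ← Finset.sum_add_distrib]
  congr 1
  refine Finset.sum_congr rfl fun n _ => ?_
  rw [ArithmeticFunction.add_apply]
  push_cast
  ring

lemma Ed_smul (P : ℝ → ℝ) (T : ℝ) (j : ℕ) (r : ℝ) (a : ArithmeticFunction ℝ) :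
    Ed P T j (r • a) = r * Ed P T j a := by
  rw [Ed_eq, Ed_eq, Finset.mul_sum]
  refine Finset.sum_congr rfl fun k _ => ?_
  rw [mul_left_comm]
  congr 1
  rw [Finset.mul_sum]
  refine Finset.sum_congr rfl fun n _ => ?_
  have : (r • a) n = r * a n := rfl
  rw [this]
  push_cast
  ring

lemma Esmall_of_Ed {P : ℝ → ℝ} {c : ℝ → ArithmeticFunction ℝ}
    (h : ∀ A : ℕ, ∀ j : ℕ, j ≤ 1 → ∃ C T0 : ℝ, ∀ T, T0 ≤ T → ‖Ed P T j (c T)‖ ≤ C * T / Real.log T ^ A) : Esmall P c := h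

/-- the three parts of `f` together -/
lemma Esmall_fk {P α : ℝ → ℝ} {c0 : ℝ} (l : ArithmeticFunction ℝ) (h1 : Esmall P fun _ => l)
    (h2 : Esmall P fun T => l * yk α T) (h3 : Esmall P fun T => l * ArithmeticFunction.log * xk P T) :
    Esmall P fun T => l * fk c0 α P T := by
  intro A j hj
  obtain ⟨C1, T1, k1⟩ := h1 A j hj
  obtain ⟨C2, T2, k2⟩ := h2 A j hj
  obtain ⟨C3, T3, k3⟩ := h3 A j hj
  refine ⟨|c0| * |C1| + |C2| + |C3|, max (max T1 T2) (max T3 3), fun T hT => ?_⟩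
  have hT1 : T1 ≤ T := (le_max_left _ _).trans ((le_max_left _ _).trans hT)
  have hT2 : T2 ≤ T := (le_max_right _ _).trans ((le_max_left _ _).trans hT)
  have hT3 : T3 ≤ T := (le_max_left _ _).trans ((le_max_right _ _).trans hT)
  have hT4 : 3 ≤ T := (le_max_right _ _).trans ((le_max_right _ _).trans hT)
  have hL : 1 ≤ Real.log T := by
    rw [Real.le_log_iff_exp_le (by linarith)]
    have := Real.exp_one_lt_d9
    linarith
  have e : l * fk c0 α P T = c0 • l + l * yk α T + (Real.log T)⁻¹ • (l * ArithmeticFunction.log * xk P T) := by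
    unfold fk y0
    rw [mul_add, mul_add, mul_smul_comm, mul_one, mul_smul_comm, mul_assoc]
  have g1 := k1 T hT1
  have g2 := k2 T hT2
  have g3 := k3 T hT3
  change ‖Ed P T j (l * fk c0 α P T)‖ ≤ _
  change ‖Ed P T j l‖ ≤ _ at g1
  change ‖Ed P T j (l * yk α T)‖ ≤ _ at g2
  change ‖Ed P T j (l * ArithmeticFunction.log * xk P T)‖ ≤ _ at g3
  rw [e, Ed_add, Ed_add, Ed_smul, Ed_smul]
  have hU : 0 ≤ T / Real.log T ^ A := by positivity
  have b1 : C1 * T / Real.log T ^ A ≤ |C1| * (T / Real.log T ^ A) := by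
    rw [mul_div_assoc]
    gcongr
    exact le_abs_self _
  have b2 : C2 * T / Real.log T ^ A ≤ |C2| * (T / Real.log T ^ A) := by
    rw [mul_div_assoc]
    gcongr
    exact le_abs_self _
  have b3 : C3 * T / Real.log T ^ A ≤ |C3| * (T / Real.log T ^ A) := by
    rw [mul_div_assoc]
    gcongr
    exact le_abs_self _
  have n1 : ‖(c0 : ℂ) * Ed P T j l‖ ≤ |c0| * (|C1| * (T / Real.log T ^ A)) := by
    rw [norm_mul, Complex.norm_real, Real.norm_eq_abs]
    gcongr
    exact g1.trans b1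
  have n3 : ‖(((Real.log T)⁻¹ : ℝ) : ℂ) * Ed P T j (l * ArithmeticFunction.log * xk P T)‖ ≤ 1 * (|C3| * (T / Real.log T ^ A)) := by
    rw [norm_mul, Complex.norm_real, Real.norm_eq_abs, abs_of_pos (by positivity)]
    have : (Real.log T)⁻¹ ≤ 1 := inv_le_one_of_one_le₀ hL
    gcongr
    exact g3.trans b3
  calc ‖(c0 : ℂ) * Ed P T j l + Ed P T j (l * yk α T) + (((Real.log T)⁻¹ : ℝ) : ℂ) * Ed P T j (l * ArithmeticFunction.log * xk P T)‖
      ≤ ‖(c0 : ℂ) * Ed P T j l‖ + ‖Ed P T j (l * yk α T)‖ +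
        ‖(((Real.log T)⁻¹ : ℝ) : ℂ) * Ed P T j (l * ArithmeticFunction.log * xk P T)‖ := norm_add₃_le
    _ ≤ |c0| * (|C1| * (T / Real.log T ^ A)) + |C2| * (T / Real.log T ^ A) + 1 * (|C3| * (T / Real.log T ^ A)) := by
        gcongr
        exact g2.trans b2
    _ = (|c0| * |C1| + |C2| + |C3|) * T / Real.log T ^ A := by ring

end H82SZ
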