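import Pool.Agent.H82.SZ.Esm
import Pool.Agent.H91.SZE.Wbv

/-!
# MP_103a5c SimpleZeros: `Esmall` for the three coefficient functions from Theorem E
-/

open Finset Filter Topology
open scoped ArithmeticFunction.vonMangoldt ArithmeticFunction.Moebius ArithmeticFunction.zeta

namespace H82SZ

/-- Theorem E -/
def ThmE (ε : ℝ) : Prop := ∀ G : ℝ, 1 ≤ G → ∀ A : ℕ, ∃ C T0 : ℝ, 0 ≤ C ∧ ∀ T : ℝ, T0 ≤ T →
    ∀ N0 K : ℕ, T ≤ N0 → (N0 : ℝ) ≤ 200 * T → (K : ℝ) ≤ T ^ (1 / 2 - ε) →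
    ∀ (x : ℕ → ℂ) (X : ℝ), (∀ k, ‖x k‖ ≤ X) → ∀ (w : ℝ → ℂ) (V : ℝ), SZE.BVw V w N0 →
    ∀ c : SZE.AF, SZE.Cc T ε G c →
    ‖∑ k ∈ (Icc 1 K).filter Squarefree, x k / k *
        ∑ n ∈ Icc 1 (N0 * k), c n * w ((n : ℝ) / k) * SZE.edif k n‖ ≤ C * X * V * (T / Real.log T ^ A)

lemma Adm.bdd {θ : ℝ} {P : ℝ → ℝ} (h : Adm θ P) : ∃ B : ℝ, 1 ≤ B ∧ ∀ v, |P v| ≤ B := by
  obtain ⟨B, hB⟩ := h.smooth.continuous.bounded_above_of_compact_support h.cpt
  exact ⟨max B 1, le_max_right _ _, fun v => (hB v).trans (le_max_left _ _)⟩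

lemma Adm.mono {θ θ' : ℝ} {P : ℝ → ℝ} (h : Adm θ P) (hθ : θ ≤ θ') : Adm θ' P :=
  ⟨h.smooth, h.cpt, fun v hv => h.zero v (hθ.trans hv)⟩

lemma abs_xk_le {P : ℝ → ℝ} {B : ℝ} (hB : ∀ v, |P v| ≤ B) (T : ℝ) (k : ℕ) : |xk P T k| ≤ B := by
  have hB0 : 0 ≤ B := (abs_nonneg _).trans (hB 0)
  show |(ArithmeticFunction.moebius k : ℝ) * P (Real.log k / Real.log T)| ≤ B
  rw [abs_mul]
  have h1 : |((ArithmeticFunction.moebius k : ℤ) : ℝ)| ≤ 1 := by
    rw [← Int.cast_abs]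
    exact_mod_cast ArithmeticFunction.abs_moebius_le_one
  calc _ ≤ 1 * B := mul_le_mul h1 (hB _) (abs_nonneg _) zero_le_one
    _ = B := one_mul B

lemma log_div_ge {T θ : ℝ} (hT : 1 < T) {n : ℕ} (h : T ^ θ ≤ n) : θ ≤ Real.log n / Real.log T := by
  have hT0 : 0 < T := by linarith
  have hl := Real.log_pos hT
  rw [le_div_iff₀ hl, ← Real.log_rpow hT0]
  exact Real.log_le_log (Real.rpow_pos_of_pos hT0 _) h

lemma xk_zero {P : ℝ → ℝ} {θ : ℝ} (hP : Adm θ P) {T : ℝ} (hT : 1 < T) {k : ℕ} (h : T ^ θ ≤ k) : xk P T k = 0 := by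
  show (ArithmeticFunction.moebius k : ℝ) * P (Real.log k / Real.log T) = 0
  rw [hP.zero _ (log_div_ge hT h), mul_zero]

lemma yk_zero {α : ℝ → ℝ} {θ : ℝ} (hα : Adm θ α) {T : ℝ} (hT : 1 < T) {k : ℕ} (h : T ^ θ ≤ k) : yk α T k = 0 := by
  show ArithmeticFunction.vonMangoldt k * α (Real.log k / Real.log T) / Real.log T = 0
  rw [hα.zero _ (log_div_ge hT h), mul_zero, zero_div]

lemma abs_yk_le {α : ℝ → ℝ} {θ : ℝ} (hθ : θ ≤ 1) (hα : Adm θ α) {B : ℝ} (hB : ∀ v, |α v| ≤ B) {T : ℝ} (hT : 1 < T)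
    (k : ℕ) : |yk α T k| ≤ B := by
  have hB0 : 0 ≤ B := (abs_nonneg _).trans (hB 0)
  have hl := Real.log_pos hT
  have hT0 : 0 < T := by linarith
  by_cases h : T ^ θ ≤ k
  · rw [yk_zero hα hT h, abs_zero]
    exact hB0
  · push Not at h
    have hk : (k : ℝ) ≤ T := by
      refine h.le.trans ?_
      calc T ^ θ ≤ T ^ (1 : ℝ) := Real.rpow_le_rpow_of_exponent_le hT.le hθ
        _ = T := Real.rpow_one T
    show |ArithmeticFunction.vonMangoldt k * α (Real.log k / Real.log T) / Real.log T| ≤ B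
    have h0 : 0 ≤ ArithmeticFunction.vonMangoldt k := ArithmeticFunction.vonMangoldt_nonneg
    have h1 : ArithmeticFunction.vonMangoldt k ≤ Real.log T := by
      refine ArithmeticFunction.vonMangoldt_le_log.trans ?_
      rcases Nat.eq_zero_or_pos k with rfl | hk0
      · simpa using hl.le
      · exact Real.log_le_log (by exact_mod_cast hk0) hk
    rw [abs_div, abs_mul, abs_of_nonneg h0, abs_of_pos hl, div_le_iff₀ hl]
    calc ArithmeticFunction.vonMangoldt k * |α (Real.log k / Real.log T)| ≤ Real.log T * B :=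
          mul_le_mul h1 (hB _) (abs_nonneg _) hl.le
      _ = B * Real.log T := mul_comm _ _

lemma Sm_zeta : SZE.Sm 2 (SZE.smo 1 0) := by
  intro N hN
  have hl : 0 ≤ Real.log N := Real.log_natCast_nonneg N
  refine ⟨fun n hn _ => ?_, ?_⟩
  · rw [SZE.smo_apply, if_neg (by omega)]
    simp
    linarith
  · have : ∑ n ∈ Ico 1 N, ‖SZE.smo 1 0 (n + 1) - SZE.smo 1 0 n‖ = 0 := by
      refine Finset.sum_eq_zero fun n hn => ?_
      rw [Finset.mem_Ico] at hn
      rw [SZE.smo_apply, SZE.smo_apply, if_neg (by omega), if_neg (by omega)]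
      simp
    rw [this]
    linarith

lemma Sm_log : SZE.Sm 2 (SZE.smo 0 1) := by
  intro N hN
  have hl : 0 ≤ Real.log N := Real.log_natCast_nonneg N
  refine ⟨fun n hn hnN => ?_, ?_⟩
  · rw [SZE.smo_apply, if_neg (by omega)]
    simp only [zero_add, one_mul, Complex.norm_real, Real.norm_eq_abs]
    rw [abs_of_nonneg (Real.log_natCast_nonneg n)]
    have : Real.log n ≤ Real.log N := Real.log_le_log (by exact_mod_cast hn) (by exact_mod_cast hnN)
    linarith
  · have key : ∀ M : ℕ, 1 ≤ M → ∑ n ∈ Ico 1 M, ‖SZE.smo 0 1 (n + 1) - SZE.smo 0 1 n‖ = Real.log M := by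
      intro M hM
      induction M, hM using Nat.le_induction with
      | base => simp
      | succ M hM ih =>
        rw [Finset.sum_Ico_succ_top hM, ih, SZE.smo_apply, SZE.smo_apply, if_neg (by omega), if_neg (by omega)]
        simp only [zero_add, one_mul]
        rw [← Complex.ofReal_sub, Complex.norm_real, Real.norm_eq_abs, abs_of_nonneg]
        · ring
        · rw [sub_nonneg]
          exact Real.log_le_log (by exact_mod_cast hM) (by push_cast; linarith)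
    rw [key N hN]
    linarith

/-- the bound for the error functional -/
theorem Ed_bound {ε : ℝ} (hε : 0 < ε) (hε' : ε ≤ 1 / 4) (hE : ThmE ε) {P : ℝ → ℝ} (hP : Adm (1 / 2 - ε) P)
    {G : ℝ} (hG : 1 ≤ G) (A : ℕ) : ∃ C T0 : ℝ, ∀ T, T0 ≤ T → ∀ j : ℕ, j ≤ 1 → ∀ c : ArithmeticFunction ℝ,
      SZE.Cc T ε G (toC c) → ‖Ed P T j c‖ ≤ C * T / Real.log T ^ A := by
  obtain ⟨B, hB1, hB⟩ := hP.bdd
  obtain ⟨C, T0, hC, h⟩ := hE G hG (A + 1)
  refine ⟨C * B * 40, max T0 3, fun T hT j hj c hc => ?_⟩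
  have hT0 : T0 ≤ T := (le_max_left _ _).trans hT
  have hT3 : 3 ≤ T := (le_max_right _ _).trans hT
  have hTp : 0 < T := by linarith
  have hT1 : 1 < T := by linarith
  have hL1 : 1 ≤ Real.log T := by
    rw [Real.le_log_iff_exp_le hTp]
    have := Real.exp_one_lt_d9
    linarith
  have hN1 : T ≤ (N0 T : ℝ) := by
    have := Nat.le_ceil (10 * T)
    unfold N0
    linarith
  have hN2 : (N0 T : ℝ) ≤ 200 * T := by
    have := Nat.ceil_lt_add_one (a := 10 * T) (by positivity)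
    unfold N0
    linarith
  have hw := SZE.wbv hT3 hN1 hN2 hj
  set K : ℕ := ⌊T ^ (1 / 2 - ε)⌋₊ with hK
  have hKT : (K : ℝ) ≤ T ^ (1 / 2 - ε) := Nat.floor_le (Real.rpow_nonneg hTp.le _)
  have hKT' : (K : ℝ) ≤ T := by
    refine hKT.trans ?_
    calc T ^ (1 / 2 - ε) ≤ T ^ (1 : ℝ) := Real.rpow_le_rpow_of_exponent_le hT1.le (by linarith)
      _ = T := Real.rpow_one T
  have h1 := h T hT0 (N0 T) K hN1 hN2 hKT (fun k => ((xk P T k : ℝ) : ℂ)) B (fun k => by
    rw [Complex.norm_real, Real.norm_eq_abs]; exact abs_xk_le hB T k) (SZE.wlog T j) _ hw (toC c) hc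
  have e : Ed P T j c = ∑ k ∈ (Icc 1 K).filter Squarefree, ((xk P T k : ℝ) : ℂ) / k *
        ∑ n ∈ Icc 1 (N0 T * k), toC c n * SZE.wlog T j ((n : ℝ) / k) * SZE.edif k n := by
    rw [Ed_eq]
    symm
    rw [Finset.sum_subset (s₂ := Icc 1 (NT T))]
    · refine Finset.sum_congr rfl fun k hk => ?_
      rw [Finset.mem_Icc] at hk
      congr 1
      refine Finset.sum_congr rfl fun n hn => ?_
      rw [Finset.mem_Icc] at hn
      rw [toC_apply, SZE.wlog_eq]
      have hk0 : (0 : ℝ) < k := by exact_mod_cast hk.1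
      have hkT : (k : ℝ) ≤ T := by
        have : (k : ℝ) ≤ NT T := by exact_mod_cast hk.2
        exact this.trans (Nat.floor_le hTp.le)
      have hn1 : (1 : ℝ) ≤ n := by exact_mod_cast hn.1
      rw [div_le_div_iff₀ hTp hk0]
      nlinarith
    · intro k hk
      rw [Finset.mem_filter, Finset.mem_Icc] at hk
      rw [Finset.mem_Icc]
      refine ⟨hk.1.1, ?_⟩
      unfold NT
      apply Nat.le_floor
      have : (k : ℝ) ≤ K := by exact_mod_cast hk.1.2
      linarith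
    · intro k hk hk'
      rw [Finset.mem_Icc] at hk
      rw [Finset.mem_filter, Finset.mem_Icc, not_and_or] at hk'
      have hx : xk P T k = 0 := by
        rcases hk' with h2 | h2
        · have h3 : K < k := by
            by_contra h4
            exact h2 ⟨hk.1, not_lt.1 h4⟩
          apply xk_zero hP hT1
          have := (Nat.floor_lt (Real.rpow_nonneg hTp.le _)).1 h3
          exact this.le
        · show (ArithmeticFunction.moebius k : ℝ) * P (Real.log k / Real.log T) = 0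
          rw [ArithmeticFunction.moebius_eq_zero_of_not_squarefree h2]
          simp
      rw [hx]
      simp
  rw [e]
  refine h1.trans ?_
  have h3 : Real.log T ^ j ≤ Real.log T := by
    interval_cases j
    · simpa using hL1
    · simp
  have h4 : 0 < Real.log T ^ (A + 1) := by positivity
  calc C * B * (40 * Real.log T ^ j) * (T / Real.log T ^ (A + 1))
      ≤ C * B * (40 * Real.log T) * (T / Real.log T ^ (A + 1)) := by gcongr
    _ = C * B * 40 * T / Real.log T ^ A := by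
        rw [pow_succ]
        field_simp

/-- `λ` is `1`, `s₁ = s` -/
lemma Cc_mk {T ε G : ℝ} {l : ArithmeticFunction ℝ} (hl : toC l = 1 ∨ toC l = SZE.aL) {s1 s2 t : ArithmeticFunction ℝ}
    (h1 : SZE.Sm G (toC s1)) (h2 : toC s2 = 1 ∨ SZE.Sm G (toC s2)) (ht : ∀ n, |t n| ≤ G)
    (h0 : ∀ n : ℕ, T ^ (1 - ε) < n → t n = 0) : SZE.Cc T ε G (toC (l * s1 * s2 * t)) := by
  refine ⟨toC l, toC s1, toC s2, toC t, hl, h1, h2, fun n => ?_, fun n hn => ?_, ?_⟩
  · rw [toC_apply, Complex.norm_real, Real.norm_eq_abs]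
    exact ht n
  · rw [toC_apply, h0 n hn, Complex.ofReal_zero]
  · rw [toC_mul, toC_mul, toC_mul]

lemma Sm_mono {G G' : ℝ} (h : G ≤ G') {s : SZE.AF} (hs : SZE.Sm G s) : SZE.Sm G' s := by
  intro N hN
  obtain ⟨h1, h2⟩ := hs N hN
  have hl : 0 ≤ Real.log N := Real.log_natCast_nonneg N
  have h3 : G * (1 + Real.log N) ≤ G' * (1 + Real.log N) := by gcongr
  exact ⟨fun n a b => (h1 n a b).trans h3, h2.trans h3⟩

lemma one_zero_big {T ε : ℝ} (hT : 1 < T) (hε : ε ≤ 1) (n : ℕ) (hn : T ^ (1 - ε) < n) : (1 : ArithmeticFunction ℝ) n = 0 := by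
  rw [ArithmeticFunction.one_apply, if_neg]
  rintro rfl
  have : (1 : ℝ) ≤ T ^ (1 - ε) := Real.one_le_rpow hT.le (by linarith)
  have h2 : T ^ (1 - ε) < ((1 : ℕ) : ℝ) := hn
  push_cast at h2
  linarith

lemma abs_one_le (n : ℕ) : |(1 : ArithmeticFunction ℝ) n| ≤ 1 := by
  rw [ArithmeticFunction.one_apply]
  split_ifs <;> simp

/-- the error terms of the three coefficient functions -/
theorem Esmall_all {ε : ℝ} (hε : 0 < ε) (hε' : ε ≤ 1 / 4) (hE : ThmE ε) {α P : ℝ → ℝ} (hα : Adm (1 - ε) α)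
    (hP : Adm (1 / 2 - ε) P) (c0 : ℝ) :
    (Esmall P fun T => (ζ : ArithmeticFunction ℝ) * fk c0 α P T) ∧
    (Esmall P fun T => ArithmeticFunction.log * fk c0 α P T) ∧
    (Esmall P fun T => Λ * ArithmeticFunction.log * fk c0 α P T) := by
  obtain ⟨B1, hB1, hB1'⟩ := hP.bdd
  obtain ⟨B2, hB2, hB2'⟩ := hα.bdd
  set G : ℝ := max 2 (max B1 B2) with hG
  have hG2 : 2 ≤ G := le_max_left _ _
  have hGB1 : B1 ≤ G := (le_max_left _ _).trans (le_max_right _ _)
  have hGB2 : B2 ≤ G := (le_max_right _ _).trans (le_max_right _ _)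
  have hG1 : 1 ≤ G := by linarith
  have sz : SZE.Sm G (toC (ζ : ArithmeticFunction ℝ)) := by rw [toC_zeta]; exact Sm_mono hG2 Sm_zeta
  have sl : SZE.Sm G (toC ArithmeticFunction.log) := by rw [toC_log]; exact Sm_mono hG2 Sm_log
  -- the nine classes
  have gen : ∀ c : ℝ → ArithmeticFunction ℝ, (∀ T : ℝ, 1 < T → SZE.Cc T ε G (toC (c T))) → Esmall P c := by
    intro c hc A j hj
    obtain ⟨C, T0, h⟩ := Ed_bound hε hε' hE hP hG1 A
    refine ⟨C, max T0 2, fun T hT => ?_⟩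
    exact h T ((le_max_left _ _).trans hT) j hj (c T) (hc T (by linarith [le_max_right T0 2]))
  have ty : ∀ T : ℝ, 1 < T → ∀ n, |yk α T n| ≤ G := fun T hT n => (abs_yk_le (by linarith) hα hB2' hT n).trans hGB2
  have ty0 : ∀ T : ℝ, 1 < T → ∀ n : ℕ, T ^ (1 - ε) < n → yk α T n = 0 := fun T hT n hn => yk_zero hα hT hn.le
  have tx : ∀ T : ℝ, ∀ n, |xk P T n| ≤ G := fun T n => (abs_xk_le hB1' T n).trans hGB1
  have tx0 : ∀ T : ℝ, 1 < T → ∀ n : ℕ, T ^ (1 - ε) < n → xk P T n = 0 := fun T hT n hn =>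
    xk_zero (hP.mono (by linarith : 1 / 2 - ε ≤ 1 - ε)) hT hn.le
  have t1 : ∀ n, |(1 : ArithmeticFunction ℝ) n| ≤ G := fun n => (abs_one_le n).trans hG1
  have t10 : ∀ T : ℝ, 1 < T → ∀ n : ℕ, T ^ (1 - ε) < n → (1 : ArithmeticFunction ℝ) n = 0 := fun T hT n hn =>
    one_zero_big hT (by linarith) n hn
  have L1 : toC (1 : ArithmeticFunction ℝ) = 1 := toC_one
  refine ⟨Esmall_fk _ ?_ ?_ ?_, Esmall_fk _ ?_ ?_ ?_, Esmall_fk _ ?_ ?_ ?_⟩
  · refine gen _ fun T hT => ?_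
    have := Cc_mk (T := T) (ε := ε) (G := G) (l := 1) (s1 := (ζ : ArithmeticFunction ℝ)) (s2 := 1) (t := 1)
      (Or.inl L1) sz (Or.inl L1) t1 (t10 T hT)
    simpa using this
  · refine gen _ fun T hT => ?_
    have := Cc_mk (T := T) (ε := ε) (G := G) (l := 1) (s1 := (ζ : ArithmeticFunction ℝ)) (s2 := 1) (t := yk α T)
      (Or.inl L1) sz (Or.inl L1) (ty T hT) (ty0 T hT)
    simpa using this
  · refine gen _ fun T hT => ?_
    have := Cc_mk (T := T) (ε := ε) (G := G) (l := 1) (s1 := (ζ : ArithmeticFunction ℝ)) (s2 := ArithmeticFunction.log)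
      (t := xk P T) (Or.inl L1) sz (Or.inr sl) (tx T) (tx0 T hT)
    simpa using this
  · refine gen _ fun T hT => ?_
    have := Cc_mk (T := T) (ε := ε) (G := G) (l := 1) (s1 := ArithmeticFunction.log) (s2 := 1) (t := 1)
      (Or.inl L1) sl (Or.inl L1) t1 (t10 T hT)
    simpa using this
  · refine gen _ fun T hT => ?_
    have := Cc_mk (T := T) (ε := ε) (G := G) (l := 1) (s1 := ArithmeticFunction.log) (s2 := 1) (t := yk α T)
      (Or.inl L1) sl (Or.inl L1) (ty T hT) (ty0 T hT)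
    simpa using this
  · refine gen _ fun T hT => ?_
    have := Cc_mk (T := T) (ε := ε) (G := G) (l := 1) (s1 := ArithmeticFunction.log) (s2 := ArithmeticFunction.log)
      (t := xk P T) (Or.inl L1) sl (Or.inr sl) (tx T) (tx0 T hT)
    simpa using this
  · refine gen _ fun T hT => ?_
    have := Cc_mk (T := T) (ε := ε) (G := G) (l := Λ) (s1 := ArithmeticFunction.log) (s2 := 1) (t := 1)
      (Or.inr toC_vonMangoldt) sl (Or.inl L1) t1 (t10 T hT)
    simpa using this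
  · refine gen _ fun T hT => ?_
    have := Cc_mk (T := T) (ε := ε) (G := G) (l := Λ) (s1 := ArithmeticFunction.log) (s2 := 1) (t := yk α T)
      (Or.inr toC_vonMangoldt) sl (Or.inl L1) (ty T hT) (ty0 T hT)
    simpa using this
  · refine gen _ fun T hT => ?_
    exact Cc_mk (T := T) (ε := ε) (G := G) (l := Λ) (s1 := ArithmeticFunction.log) (s2 := ArithmeticFunction.log)
      (t := xk P T) (Or.inr toC_vonMangoldt) sl (Or.inr sl) (tx T) (tx0 T hT)

end H82SZ
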