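import Pool.Agent.H82.SZ.Ms
import Pool.Agent.H82.SZ.Esn
import Pool.Agent.H26.SZ.Fj

/-!
# MP_103a5c SimpleZeros: the moment bound and the final theorem from the blocks C, K, E, M, D
-/

open Finset Filter Topology

namespace H82SZ

open Pool.Agent

/-- the moment bound from the blocks -/
theorem moment_of (hC : CFstat) (hK : KFstat) (hE : ∀ ε : ℝ, 0 < ε → ε ≤ 1 / 4 → ThmE ε)
    (hM : ∀ (ε : ℝ) (α P : ℝ → ℝ), 0 < ε → ε < 1 / 2 → Adm (1 - ε) α → Adm (1 / 2 - ε) P → MStat α P)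
    (hD : ∀ (c0 ε : ℝ) (α P : ℝ → ℝ), 0 < ε → ε < 1 / 2 → Adm (1 - ε) α → Adm (1 / 2 - ε) P → DStat c0 α P) :
    Pool.Agent.H26.SZ.MomentBound := by
  intro c0 ε α P hε hε2 hα hP δ hδ
  set ε' : ℝ := min ε (1 / 4) with he
  have h1 : 0 < ε' := lt_min hε (by norm_num)
  have h2 : ε' ≤ 1 / 4 := min_le_right _ _
  have h3 : ε' ≤ ε := min_le_left _ _
  have hα' : Adm (1 - ε') α := hα.mono (by linarith)
  have hP' : Adm (1 / 2 - ε') P := hP.mono (by linarith)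
  obtain ⟨e1, e2, e3⟩ := Esmall_all h1 h2 (hE ε' h1 h2) hα' hP' c0
  have hB := mbound hC hK hε hε2 hα hP e1 e2 e3 (hM ε α P hε hε2 hα hP) (hD c0 ε α P hε hε2 hα hP)
  filter_upwards [hB δ hδ, eventually_gt_atTop (1 : ℝ)] with T hT hT1 S hS
  classical
  have hl := Real.log_pos hT1
  have e : om T * Real.log T = T * Real.sqrt (Real.log T) / (2 * Real.sqrt Real.pi) := by
    unfold om
    have hs : 0 < Real.sqrt (Real.log T) := Real.sqrt_pos.2 hl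
    have hp : 0 < Real.sqrt Real.pi := Real.sqrt_pos.2 Real.pi_pos
    have h6 : Real.sqrt (Real.log T) * Real.sqrt (Real.log T) = Real.log T := Real.mul_self_sqrt hl.le
    field_simp
    nlinarith
  rw [e]
  have h4 := hT (S.subtype (· ∈ PC.Z)) (by
    intro i hi
    rw [Finset.mem_subtype] at hi
    exact ⟨(hS _ hi).2.1, (hS _ hi).2.2⟩)
  refine le_trans (le_of_eq ?_) h4
  rw [← Finset.sum_subtype_of_mem (fun g : ℝ => (PC.m g : ℝ) * H26.SZ.Gw T g * ‖FF c0 α P T (1 / 2 + g * Complex.I)‖ ^ 2)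
    (fun x hx => (hS x hx).1)]
  refine Finset.sum_congr rfl fun i _ => ?_
  rw [mul_assoc]
  rfl

/-- the final theorem from the blocks -/
theorem result_of (RH : RiemannHypothesis) (hC : CFstat) (hK : KFstat) (hE : ∀ ε : ℝ, 0 < ε → ε ≤ 1 / 4 → ThmE ε)
    (hM : ∀ (ε : ℝ) (α P : ℝ → ℝ), 0 < ε → ε < 1 / 2 → Adm (1 - ε) α → Adm (1 / 2 - ε) P → MStat α P)
    (hD : ∀ (c0 ε : ℝ) (α P : ℝ → ℝ), 0 < ε → ε < 1 / 2 → Adm (1 - ε) α → Adm (1 / 2 - ε) P → DStat c0 α P) :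
    ∀ᶠ T in atTop,
      PC.pairCount T 0 0 ≤ 1.2928 * PC.norm T ∧
      0.7072 * PC.norm T ≤ (({ρ : ℂ | ρ ∈ PC.zerosUpTo T ∧ deriv riemannZeta ρ ≠ 0}.ncard : ℕ) : ℝ) ∧
      0.8536 * PC.norm T ≤ (((PC.zerosUpTo T).ncard : ℕ) : ℝ) :=
  Pool.Agent.H26.SZ.final RH (moment_of hC hK hE hM hD)

end H82SZ
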