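import Pool.Agent.H82.SZ.Fin
import Pool.Agent.H91.SZE.Fin
import Pool.Agent.H53.SZC.Fin
import Pool.Agent.H74.SZ.Kfin
import Pool.Agent.H11.SZ.Fin
import Pool.Agent.H10.SZ.Dst

/-!
# MP_103a5c SimpleZeros: the final theorem
-/

open Finset Filter Topology

namespace H82SZ

open Pool.Agent

theorem thmE_all (ε : ℝ) (hε : 0 < ε) (hε' : ε ≤ 1 / 4) : ThmE ε := by
  obtain ⟨κ, hE⟩ := SZE.thmE hε hε'
  intro G hG A
  obtain ⟨C, T0, hC, h⟩ := hE A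
  refine ⟨C * G ^ κ, T0, by positivity, fun T hT N0 K h1 h2 h3 x X hX w V hV c hc => ?_⟩
  refine (h T hT N0 K h1 h2 h3 x X hX w V hV G hG c hc).trans (le_of_eq ?_)
  ring

/-- **Simple zeros beyond `19/27`.** -/
theorem simpleZeros (RH : RiemannHypothesis) : ∀ᶠ T in atTop,
      PC.pairCount T 0 0 ≤ 1.2928 * PC.norm T ∧
      0.7072 * PC.norm T ≤ (({ρ : ℂ | ρ ∈ PC.zerosUpTo T ∧ deriv riemannZeta ρ ≠ 0}.ncard : ℕ) : ℝ) ∧
      0.8536 * PC.norm T ≤ (((PC.zerosUpTo T).ncard : ℕ) : ℝ) :=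
  result_of RH (Pool.Agent.H53.SZC.cf RH) H74SZ.kf thmE_all
    (fun _ _ _ hε _ hα hP => H11.SZ.mstat hε hα hP) (fun _ _ _ _ hε _ hα hP => H82SZ.dstat hε hα hP)

end H82SZ
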