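import Pool.Agent.H82.SZ.Asm
import Pool.Agent.H26.SZ.Jd

/-!
# MP_103a5c SimpleZeros: the list of limits of block M, and the limits for `f = c₀ δ + y + (log * x)/L`
-/

open Finset Filter Topology
open scoped ArithmeticFunction.vonMangoldt ArithmeticFunction.Moebius ArithmeticFunction.zeta

namespace H82SZ

/-- the twelve limits of block M -/
structure MStat (α P : ℝ → ℝ) : Prop where
  m1 : MLim P 1 1 (fun _ => (ζ : ArithmeticFunction ℝ)) (P 0)
  m2 : MLim P 0 1 (fun _ => ArithmeticFunction.log) (P 0)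
  m2' : MLim P 1 2 (fun _ => ArithmeticFunction.log) (P 0)
  m3 : MLim P 0 2 (fun _ => Λ * ArithmeticFunction.log) (P 0 / 2 - ∫ u in (0 : ℝ)..1, P u)
  y1 : MLim P 1 1 (fun T => (ζ : ArithmeticFunction ℝ) * yk α T) (∫ v in (0 : ℝ)..1, α v * (P 0 - P v))
  y2 : MLim P 0 1 (fun T => ArithmeticFunction.log * yk α T) (∫ v in (0 : ℝ)..1, α v * ((1 - v) * P 0 - P v))
  y2' : MLim P 1 2 (fun T => ArithmeticFunction.log * yk α T) (∫ v in (0 : ℝ)..1, α v * ((1 - v) * P 0 - P v))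
  y3 : MLim P 0 2 (fun T => Λ * ArithmeticFunction.log * yk α T)
    (∫ v in (0 : ℝ)..1, α v * ((P 0 - P v) / 2 - v * P 0 + v ^ 2 * P 0 / 2 - (∫ u in (0 : ℝ)..1, P u) * (1 - v) +
      ∫ u in v..1, P u))
  x1 : MLim P 1 2 (fun T => (ζ : ArithmeticFunction ℝ) * ArithmeticFunction.log * xk P T)
    ((∫ v in (0 : ℝ)..1, deriv P v ^ 2) / 2 + P 0 ^ 2 / 2)
  x2 : MLim P 0 2 (fun T => ArithmeticFunction.log * ArithmeticFunction.log * xk P T)
    ((∫ v in (0 : ℝ)..1, deriv P v ^ 2) / 6 - ∫ v in (0 : ℝ)..1, P v ^ 2)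
  x2' : MLim P 1 3 (fun T => ArithmeticFunction.log * ArithmeticFunction.log * xk P T)
    ((∫ v in (0 : ℝ)..1, deriv P v ^ 2) / 6 - ∫ v in (0 : ℝ)..1, P v ^ 2)
  x3 : MLim P 0 3 (fun T => Λ * ArithmeticFunction.log * ArithmeticFunction.log * xk P T)
    ((∫ v in (0 : ℝ)..1, deriv P v ^ 2) / 24 - P 0 ^ 2 / 12 + P 0 * (∫ u in (0 : ℝ)..1, P u) / 2
      - 3 / 2 * (∫ v in (0 : ℝ)..1, P v ^ 2) + (∫ u in (0 : ℝ)..1, P u) ^ 2 / 2)

/-- the diagonal sums -/
structure DStat (c0 : ℝ) (α P : ℝ → ℝ) : Prop where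
  d1 : Tendsto (fun T => diag T (fk c0 α P T) (y0 c0 α T)) atTop
    (𝓝 (c0 ^ 2 + (∫ v in (0 : ℝ)..1, v * α v ^ 2) + P 0 * ∫ v in (0 : ℝ)..1, v * α v))
  d2 : Tendsto (fun T => diag T (Λ * fk c0 α P T) (y0 c0 α T) / Real.log T) atTop
    (𝓝 (c0 * ∫ v in (0 : ℝ)..1, v * α v))

lemma Prj_add (P : ℝ → ℝ) (T : ℝ) (j : ℕ) (a b : ArithmeticFunction ℝ) :
    Prj P T j (a + b) = Prj P T j a + Prj P T j b := by
  unfold Prj
  rw [← Finset.sum_add_distrib]
  refine Finset.sum_congr rfl fun k _ => ?_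
  rw [← mul_add, ← Finset.sum_add_distrib]
  congr 1
  refine Finset.sum_congr rfl fun n _ => ?_
  rw [ArithmeticFunction.add_apply]
  ring

lemma Prj_smul (P : ℝ → ℝ) (T : ℝ) (j : ℕ) (r : ℝ) (a : ArithmeticFunction ℝ) :
    Prj P T j (r • a) = r * Prj P T j a := by
  unfold Prj
  rw [Finset.mul_sum]
  refine Finset.sum_congr rfl fun k _ => ?_
  rw [mul_left_comm]
  congr 1
  rw [Finset.mul_sum]
  refine Finset.sum_congr rfl fun n _ => ?_
  have : (r • a) n = r * a n := rfl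
  rw [this]
  ring

/-- the three parts together -/
lemma MLim_fk {c0 : ℝ} {α P : ℝ → ℝ} {j h : ℕ} (l : ArithmeticFunction ℝ) {v1 v2 v3 : ℝ}
    (h1 : MLim P j h (fun _ => l) v1) (h2 : MLim P j h (fun T => l * yk α T) v2)
    (h3 : MLim P j (h + 1) (fun T => l * ArithmeticFunction.log * xk P T) v3) :
    MLim P j h (fun T => l * fk c0 α P T) (c0 * v1 + v2 + v3) := by
  unfold MLim at *
  refine (((h1.const_mul c0).add h2).add h3).congr' ?_
  filter_upwards [eventually_gt_atTop 1] with T hT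
  have e : l * fk c0 α P T = c0 • l + l * yk α T + (Real.log T)⁻¹ • (l * ArithmeticFunction.log * xk P T) := by
    unfold fk y0
    rw [mul_add, mul_add, mul_smul_comm, mul_one, mul_smul_comm, mul_assoc]
  rw [e, Prj_add, Prj_add, Prj_smul, Prj_smul]
  have ho := (om_pos hT).ne'
  have hl := (Real.log_pos hT).ne'
  field_simp
  ring

lemma int_aux3 {α P J : ℝ → ℝ} (hα : Continuous α) (hP : Continuous P) (hJ : Continuous J) (p K : ℝ) :
    (∫ v in (0 : ℝ)..1, α v * ((p - P v) / 2 - v * p + v ^ 2 * p / 2 - K * (1 - v) + J v)) =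
      (p / 2 - K) * (∫ v in (0 : ℝ)..1, α v) +
      (K - p) * (∫ v in (0 : ℝ)..1, v * α v) + p / 2 * (∫ v in (0 : ℝ)..1, v ^ 2 * α v) -
      1 / 2 * (∫ v in (0 : ℝ)..1, α v * P v) + ∫ v in (0 : ℝ)..1, α v * J v := by
  have c1 : IntervalIntegrable (fun v => v * α v) MeasureTheory.volume 0 1 :=
    Continuous.intervalIntegrable (by fun_prop) _ _
  have c2 : IntervalIntegrable (fun v => α v * P v) MeasureTheory.volume 0 1 :=
    Continuous.intervalIntegrable (by fun_prop) _ _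
  have c3 : IntervalIntegrable (fun v => α v) MeasureTheory.volume 0 1 := hα.intervalIntegrable _ _
  have c4 : IntervalIntegrable (fun v => v ^ 2 * α v) MeasureTheory.volume 0 1 :=
    Continuous.intervalIntegrable (by fun_prop) _ _
  have c5 : IntervalIntegrable (fun v => α v * J v) MeasureTheory.volume 0 1 :=
    Continuous.intervalIntegrable (by fun_prop) _ _
  simp only [← intervalIntegral.integral_const_mul]
  rw [← intervalIntegral.integral_add (c3.const_mul _) (c1.const_mul _),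
    ← intervalIntegral.integral_add ((c3.const_mul _).add (c1.const_mul _)) (c4.const_mul _),
    ← intervalIntegral.integral_sub (((c3.const_mul _).add (c1.const_mul _)).add (c4.const_mul _)) (c2.const_mul _),
    ← intervalIntegral.integral_add ((((c3.const_mul _).add (c1.const_mul _)).add (c4.const_mul _)).sub (c2.const_mul _)) c5]
  congr 1
  funext v
  ring

lemma int_aux4 {α P J : ℝ → ℝ} (hα : Continuous α) (hP : Continuous P) (hJ : Continuous J) (p K : ℝ) :
    (∫ v in (0 : ℝ)..1, α v * (p * (1 / 2 - v - v ^ 2 / 2) + K * (1 - v) - P v / 2 - J v)) =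
      (p / 2 + K) * (∫ v in (0 : ℝ)..1, α v) -
      (p + K) * (∫ v in (0 : ℝ)..1, v * α v) - p / 2 * (∫ v in (0 : ℝ)..1, v ^ 2 * α v) -
      1 / 2 * (∫ v in (0 : ℝ)..1, α v * P v) - ∫ v in (0 : ℝ)..1, α v * J v := by
  have c1 : IntervalIntegrable (fun v => v * α v) MeasureTheory.volume 0 1 :=
    Continuous.intervalIntegrable (by fun_prop) _ _
  have c2 : IntervalIntegrable (fun v => α v * P v) MeasureTheory.volume 0 1 :=
    Continuous.intervalIntegrable (by fun_prop) _ _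
  have c3 : IntervalIntegrable (fun v => α v) MeasureTheory.volume 0 1 := hα.intervalIntegrable _ _
  have c4 : IntervalIntegrable (fun v => v ^ 2 * α v) MeasureTheory.volume 0 1 :=
    Continuous.intervalIntegrable (by fun_prop) _ _
  have c5 : IntervalIntegrable (fun v => α v * J v) MeasureTheory.volume 0 1 :=
    Continuous.intervalIntegrable (by fun_prop) _ _
  simp only [← intervalIntegral.integral_const_mul]
  rw [← intervalIntegral.integral_sub (c3.const_mul _) (c1.const_mul _),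
    ← intervalIntegral.integral_sub ((c3.const_mul _).sub (c1.const_mul _)) (c4.const_mul _),
    ← intervalIntegral.integral_sub (((c3.const_mul _).sub (c1.const_mul _)).sub (c4.const_mul _)) (c2.const_mul _),
    ← intervalIntegral.integral_sub ((((c3.const_mul _).sub (c1.const_mul _)).sub (c4.const_mul _)).sub (c2.const_mul _)) c5]
  congr 1
  funext v
  ring

/-- the value of the functional -/
theorem JJ_eq {c0 : ℝ} {α P : ℝ → ℝ} (hα : Continuous α) (hP : Continuous P) :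
    2 * (-(c0 * ∫ v in (0 : ℝ)..1, v * α v) +
      (c0 * (P 0 / 2 - ∫ u in (0 : ℝ)..1, P u) +
        (∫ v in (0 : ℝ)..1, α v * ((P 0 - P v) / 2 - v * P 0 + v ^ 2 * P 0 / 2 - (∫ u in (0 : ℝ)..1, P u) * (1 - v) +
          ∫ u in v..1, P u)) +
        ((∫ v in (0 : ℝ)..1, deriv P v ^ 2) / 24 - P 0 ^ 2 / 12 + P 0 * (∫ u in (0 : ℝ)..1, P u) / 2
      - 3 / 2 * (∫ v in (0 : ℝ)..1, P v ^ 2) + (∫ u in (0 : ℝ)..1, P u) ^ 2 / 2)) -
      (c0 * P 0 + (∫ v in (0 : ℝ)..1, α v * ((1 - v) * P 0 - P v)) +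
        ((∫ v in (0 : ℝ)..1, deriv P v ^ 2) / 6 - ∫ v in (0 : ℝ)..1, P v ^ 2))) +
    ((c0 ^ 2 + (∫ v in (0 : ℝ)..1, v * α v ^ 2) + P 0 * ∫ v in (0 : ℝ)..1, v * α v) +
      (c0 * P 0 + (∫ v in (0 : ℝ)..1, α v * (P 0 - P v)) + ((∫ v in (0 : ℝ)..1, deriv P v ^ 2) / 2 + P 0 ^ 2 / 2)) -
      (c0 * P 0 + (∫ v in (0 : ℝ)..1, α v * ((1 - v) * P 0 - P v)) +
        ((∫ v in (0 : ℝ)..1, deriv P v ^ 2) / 6 - ∫ v in (0 : ℝ)..1, P v ^ 2))) =
    Pool.Agent.H26.SZ.JJ c0 α P := by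
  have hI : Continuous fun v : ℝ => ∫ u in v..1, P u := by
    have h1 : Continuous fun v : ℝ => ∫ u in (1 : ℝ)..v, P u :=
      intervalIntegral.continuous_primitive (fun a b => hP.intervalIntegrable a b) 1
    have h2 : (fun v : ℝ => ∫ u in v..1, P u) = fun v => -∫ u in (1 : ℝ)..v, P u := by
      funext v
      rw [intervalIntegral.integral_symm]
    rw [h2]
    exact h1.neg
  have c1 : IntervalIntegrable (fun v => v * α v) MeasureTheory.volume 0 1 :=
    Continuous.intervalIntegrable (by fun_prop) _ _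
  have c2 : IntervalIntegrable (fun v => α v * P v) MeasureTheory.volume 0 1 :=
    Continuous.intervalIntegrable (by fun_prop) _ _
  have c3 : IntervalIntegrable (fun v => α v) MeasureTheory.volume 0 1 := hα.intervalIntegrable _ _
  have c4 : IntervalIntegrable (fun v => v ^ 2 * α v) MeasureTheory.volume 0 1 :=
    Continuous.intervalIntegrable (by fun_prop) _ _
  have c5 : IntervalIntegrable (fun v => α v * ∫ u in v..1, P u) MeasureTheory.volume 0 1 :=
    Continuous.intervalIntegrable (by fun_prop) _ _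
  have e1 : (∫ v in (0 : ℝ)..1, α v * (P 0 - P v)) = P 0 * (∫ v in (0 : ℝ)..1, α v) - ∫ v in (0 : ℝ)..1, α v * P v := by
    rw [← intervalIntegral.integral_const_mul, ← intervalIntegral.integral_sub (c3.const_mul _) c2]
    congr 1
    funext v
    ring
  have e2 : (∫ v in (0 : ℝ)..1, α v * ((1 - v) * P 0 - P v)) = P 0 * (∫ v in (0 : ℝ)..1, α v) -
      P 0 * (∫ v in (0 : ℝ)..1, v * α v) - ∫ v in (0 : ℝ)..1, α v * P v := by
    rw [← intervalIntegral.integral_const_mul, ← intervalIntegral.integral_const_mul,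
      ← intervalIntegral.integral_sub (c3.const_mul _) (c1.const_mul _),
      ← intervalIntegral.integral_sub ((c3.const_mul _).sub (c1.const_mul _)) c2]
    congr 1
    funext v
    ring
  have e3 := int_aux3 hα hP hI (P 0) (∫ u in (0 : ℝ)..1, P u)
  have e4 := int_aux4 hα hP hI (P 0) (∫ u in (0 : ℝ)..1, P u)
  unfold Pool.Agent.H26.SZ.JJ Pool.Agent.H26.SZ.CC
  rw [e1, e2, e3, e4]
  ring

/-- the moment bound with the functional `JJ` -/
theorem mbound (hC : CFstat) (hK : KFstat) {c0 ε : ℝ} {α P : ℝ → ℝ} (hε : 0 < ε) (hε' : ε < 1 / 2)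
    (hα : Adm (1 - ε) α) (hP : Adm (1 / 2 - ε) P)
    (hE1 : Esmall P fun T => (ζ : ArithmeticFunction ℝ) * fk c0 α P T)
    (hE2 : Esmall P fun T => ArithmeticFunction.log * fk c0 α P T)
    (hE3 : Esmall P fun T => Λ * ArithmeticFunction.log * fk c0 α P T)
    (hM : MStat α P) (hD : DStat c0 α P) :
    Pool.Agent.H26.SZ.MBound (FF c0 α P) (Pool.Agent.H26.SZ.JJ c0 α P) := by
  rw [← JJ_eq hα.smooth.continuous hP.smooth.continuous]
  exact mbound_of hC hK hε hε' hα hP hE1 hE2 hE3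
    (MLim_fk _ hM.m1 hM.y1 hM.x1) (MLim_fk _ hM.m2 hM.y2 hM.x2)
    (MLim_fk _ hM.m3 hM.y3 hM.x3) (MLim_fk _ hM.m2' hM.y2' hM.x2') hD.d1 hD.d2

end H82SZ
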